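import Pool.Agent.H78.PL.Num4
import Pool.Agent.H80.AP.Norm

/-! Arithmetic of the epochs, part 5: the constants, and the numerical theorem. -/

set_option autoImplicit false

open Finset

namespace Pool.Agent.H78.PL

/-- A number with `r ^ 48 = 2`. -/
lemma exists_r : ∃ r : ℝ, 1 < r ∧ r ^ 48 = 2 := by
  refine ⟨(2 : ℝ) ^ ((1 : ℝ) / 48), Real.one_lt_rpow (by norm_num) (by norm_num), ?_⟩
  rw [← Real.rpow_natCast, ← Real.rpow_mul (by norm_num)]
  norm_num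

lemma big {r : ℝ} (hr : 1 < r) (r48 : r ^ 48 = 2) {n : ℕ} (hn : 3840 ≤ n) : 2000 * (216 : ℝ) ^ 4 * (n : ℝ) ^ 2 ≤ r ^ n := by
  set u := n / 384 with hu
  have h1 : 384 * u ≤ n := Nat.mul_div_le n 384
  have h2 : n < 384 * (u + 1) := by omega
  have h3 : 10 ≤ u := by omega
  have h4 : u + 1 ≤ 2 ^ u := Nat.lt_two_pow_self
  have h5 : (n : ℝ) ≤ 384 * (2 : ℝ) ^ u := by
    have : n ≤ 384 * 2 ^ u := by nlinarith
    exact_mod_cast this
  have h6 : ((2 : ℝ) ^ u) ^ 8 ≤ r ^ n := by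
    calc ((2 : ℝ) ^ u) ^ 8 = r ^ (384 * u) := by
          rw [← pow_mul, ← r48, ← pow_mul]
          congr 1
          ring
      _ ≤ r ^ n := pow_le_pow_right₀ hr.le h1
  refine le_trans ?_ h6
  have h7 : (2 : ℝ) ^ 10 ≤ (2 : ℝ) ^ u := pow_le_pow_right₀ (by norm_num) h3
  set x : ℝ := (2 : ℝ) ^ u with hx
  have x0 : 0 < x := by positivity
  have h8 : ((2 : ℝ) ^ 10) ^ 6 ≤ x ^ 6 := pow_le_pow_left₀ (by positivity) h7 6
  calc 2000 * (216 : ℝ) ^ 4 * (n : ℝ) ^ 2 ≤ 2000 * (216 : ℝ) ^ 4 * (384 * x) ^ 2 := by gcongr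
    _ = (2000 * (216 : ℝ) ^ 4 * 384 ^ 2) * x ^ 2 := by ring
    _ ≤ ((2 : ℝ) ^ 10) ^ 6 * x ^ 2 := by
        refine mul_le_mul_of_nonneg_right ?_ (by positivity)
        norm_num
    _ ≤ x ^ 6 * x ^ 2 := by gcongr
    _ = x ^ 8 := by ring

/-- The numerical part. -/
theorem numeric : ∃ κ : ℕ, ∀ h : ℕ, ∃ (J P : ℕ) (G : ℕ → ℕ),
    (∀ j, 1 ≤ G j) ∧ P = 16 * (h + 1) * ∏ i ∈ Finset.range h, G i ∧
    2 ^ J * P ≤ (h + 2) ^ κ ∧
    ∀ c : ℕ → ℕ → ℝ, (∀ j t, 0 ≤ c j t) →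
      (∀ j d, 1 ≤ d → c (j + 1) d ≤ √2 * c j (G j * (d - 1) + 1) +
        432 * ∑ t ∈ Finset.Ioc (G j * (d - 1) + 1) P, c j t) →
      (∀ i s d, (∀ l, i ≤ l → l < i + s → G l = 1) → 2 ≤ d →
        c (i + s) d ≤ 2 ^ s * (216 * ∑ t ∈ Finset.Icc d P, c i t)) →
      (∀ j t, j + 2 ≤ t → c j t ≤ 36 * (P + j + 2) * P) →
      c 0 1 ≤ 2 ^ J * P →
      c h 1 ≤ 3 * (2 ^ J * P) * √2 ^ h := by
  obtain ⟨r, hr, r48⟩ := exists_r
  have hr0 : 0 < r := by linarith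
  have r24 : r ^ 24 = √2 := by
    have h1 : r ^ 24 * r ^ 24 = 2 := by rw [← pow_add]; exact r48
    rw [eq_comm, Real.sqrt_eq_iff_mul_self_eq (by norm_num) (by positivity)]
    exact h1.symm
  obtain ⟨kap, hk⟩ := H80NP.sched (2 ^ 11) 3840 48 (by norm_num)
  refine ⟨kap, fun h => ?_⟩
  obtain ⟨J, Jk, G, hJ0, hJ4, h1, h2, h3, h4, h5, h6, h7, h8, h9, h10⟩ := hk h
  refine ⟨J, _, G, h6, rfl, h10, ?_⟩
  set P := 16 * (h + 1) * ∏ i ∈ range h, G i with hPd
  intro c c0 cA cD cF c1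
  have hprod : 0 < ∏ i ∈ range h, G i := prod_pos fun i _ => h6 i
  have hPh : 16 * (h + 1) ≤ P := by
    rw [hPd]
    exact Nat.le_mul_of_pos_right _ hprod
  have hP1 : 1 ≤ P := by omega
  obtain ⟨F, F0, FA, FD, FL, F01, Fh⟩ := H80NP.norm hP1 c0 cA cD cF c1
  refine Fh h ?_
  have Q : Par 216 r 11 J :=
    { hC := by norm_num
      hr := hr
      r48 := r48
      ha := by norm_num
      haC := by norm_num
      h1 := by omega
      hZ := fun n hn => big hr r48 (by omega) }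
  have hP1' : (1 : ℝ) ≤ P := by exact_mod_cast hP1
  have hPr : (P : ℝ) ≤ r ^ J := by
    refine le_of_pow_le_pow_left₀ (n := 48) (by norm_num) (by positivity) ?_
    have h11 : (P : ℝ) ^ 48 ≤ 2 ^ J := by exact_mod_cast h9
    calc (P : ℝ) ^ 48 ≤ 2 ^ J := h11
      _ = (r ^ J) ^ 48 := by rw [← r48, ← pow_mul, ← pow_mul, mul_comm]
  have h2J : r ^ (48 * J) = 2 ^ J := by rw [pow_mul, r48]
  have S : Sys 216 r G P (r ^ (48 * J)) h F :=
    { f0 := F0
      step := by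
        intro j d _ hd
        refine (FA j d hd).trans ?_
        have : 0 ≤ ∑ t ∈ Ioc (G j * (d - 1) + 1) P, F j t := sum_nonneg fun t _ => F0 j t
        linarith
      dd := by
        intro i s d _ hn hd
        have := FD i s d hn hd
        rw [pow_mul, r24]
        exact this
      fl := by
        intro j t hj ht
        refine (FL j t ht).trans ?_
        rw [h2J, pow_mul, r24]
        refine div_le_div_of_nonneg_right ?_ (by positivity)
        have h12 : ((j : ℝ) + 3) ≤ P := by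
          have : j + 3 ≤ P := by omega
          exact_mod_cast this
        nlinarith
      base := F01
      P1 := hP1
      N4 := by
        calc (P : ℝ) ^ 4 ≤ (r ^ J) ^ 4 := pow_le_pow_left₀ (by positivity) hPr 4
          _ = r ^ (4 * J) := by rw [← pow_mul, mul_comm]
          _ ≤ r ^ (48 * J) := pow_le_pow_right₀ hr.le (by omega) }
  exact core' Q (by norm_num; omega) hJ4 h1 h2 h3 h4 h5 h7 h8 hPr S

end Pool.Agent.H78.PL
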