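import Mathlib

/-! Arithmetic of the epochs, part 1: the weights. `r ^ 48 = 2`, `g = 2 ^ a`. -/

set_option autoImplicit false

open Finset

namespace Pool.Agent.H78.PL

/-- The weight after a special level. -/
noncomputable def al (p g J m : ℕ) : ℝ := ((m : ℝ) / ((g : ℝ) * J)) ^ (p * m)

/-- The weight `s` levels later. -/
noncomputable def aw (p g J s m : ℕ) : ℝ := al p g J m * (1 + (m : ℝ) / J) ^ s

lemma al_nonneg (p g J m : ℕ) : 0 ≤ al p g J m := by unfold al; positivity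

lemma aw_nonneg (p g J s m : ℕ) : 0 ≤ aw p g J s m := by
  unfold aw
  exact mul_nonneg (al_nonneg _ _ _ _) (by positivity)

lemma al_le_aw (p g J s m : ℕ) : al p g J m ≤ aw p g J s m := by
  unfold aw
  have h : 1 ≤ (1 + (m : ℝ) / J) ^ s := one_le_pow₀ (by
    have : 0 ≤ (m : ℝ) / J := by positivity
    linarith)
  nlinarith [al_nonneg p g J m]

lemma aw_zero (p g J m : ℕ) : aw p g J 0 m = al p g J m := by unfold aw; simp

lemma one_add_pow_le {m : ℕ} (hm : 1 ≤ m) {s : ℕ} (hs : s ≤ m) : (1 + 1 / (m : ℝ)) ^ s ≤ 3 := by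
  have hm' : (0 : ℝ) < m := by exact_mod_cast hm
  have h1 : 1 + 1 / (m : ℝ) ≤ Real.exp (1 / m) := by
    have := Real.add_one_le_exp (1 / (m : ℝ))
    linarith
  calc (1 + 1 / (m : ℝ)) ^ s ≤ (Real.exp (1 / m)) ^ s := pow_le_pow_left₀ (by positivity) h1 s
    _ = Real.exp (s * (1 / m)) := by rw [← Real.exp_nat_mul]
    _ ≤ Real.exp 1 := by
        apply Real.exp_le_exp.2
        rw [mul_one_div, div_le_one hm']
        exact_mod_cast hs
    _ ≤ 3 := by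
        have := Real.exp_one_lt_d9
        linarith

/-- The ratio of two consecutive weights. -/
lemma aw_succ {p g J s m : ℕ} (hg : 1 ≤ g) (hJ : 1 ≤ J) (hm : 1 ≤ m) (hs : s ≤ J) :
    aw p g J s (m + 1) ≤ 3 * (6 * m / ((g : ℝ) * J)) ^ p * aw p g J s m := by
  have hg' : (0 : ℝ) < g := by exact_mod_cast hg
  have hJ' : (0 : ℝ) < J := by exact_mod_cast hJ
  have hm' : (1 : ℝ) ≤ m := by exact_mod_cast hm
  have hgJ : (0 : ℝ) < (g : ℝ) * J := by positivity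
  have e1 : ((m : ℝ) + 1) / ((g : ℝ) * J) ≤ 2 * m / ((g : ℝ) * J) := by
    gcongr
    linarith
  have e2 : ((m : ℝ) + 1) / ((g : ℝ) * J) = (m : ℝ) / ((g : ℝ) * J) * (1 + 1 / m) := by
    field_simp
  have a1 : al p g J (m + 1) ≤ (6 * m / ((g : ℝ) * J)) ^ p * al p g J m := by
    unfold al
    push_cast
    have e3 : (((m : ℝ) + 1) / ((g : ℝ) * J)) ^ (p * (m + 1)) =
        (((m : ℝ) + 1) / ((g : ℝ) * J)) ^ p * ((((m : ℝ) / ((g : ℝ) * J)) ^ (p * m)) * ((1 + 1 / (m : ℝ)) ^ m) ^ p) := by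
      rw [← pow_mul, mul_comm m p, ← mul_pow, ← e2, ← pow_add]
      congr 1
      ring
    rw [e3]
    have b1 : (((m : ℝ) + 1) / ((g : ℝ) * J)) ^ p ≤ (2 * m / ((g : ℝ) * J)) ^ p := pow_le_pow_left₀ (by positivity) e1 p
    have b2 : ((1 + 1 / (m : ℝ)) ^ m) ^ p ≤ 3 ^ p := pow_le_pow_left₀ (by positivity) (one_add_pow_le hm le_rfl) p
    calc (((m : ℝ) + 1) / ((g : ℝ) * J)) ^ p * ((((m : ℝ) / ((g : ℝ) * J)) ^ (p * m)) * ((1 + 1 / (m : ℝ)) ^ m) ^ p)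
        ≤ (2 * m / ((g : ℝ) * J)) ^ p * ((((m : ℝ) / ((g : ℝ) * J)) ^ (p * m)) * 3 ^ p) := by gcongr
      _ = (6 * m / ((g : ℝ) * J)) ^ p * ((m : ℝ) / ((g : ℝ) * J)) ^ (p * m) := by
          have : (6 * (m : ℝ) / ((g : ℝ) * J)) = (2 * m / ((g : ℝ) * J)) * 3 := by ring
          rw [this, mul_pow]
          ring
  have a2 : (1 + ((m + 1 : ℕ) : ℝ) / J) ^ s ≤ (1 + (m : ℝ) / J) ^ s * 3 := by
    have c1 : 1 + ((m + 1 : ℕ) : ℝ) / J ≤ (1 + (m : ℝ) / J) * (1 + 1 / J) := by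
      push_cast
      have : 0 ≤ (m : ℝ) / J * (1 / J) := by positivity
      have e : (1 + (m : ℝ) / J) * (1 + 1 / J) = 1 + ((m : ℝ) + 1) / J + (m : ℝ) / J * (1 / J) := by ring
      rw [e]
      linarith
    calc (1 + ((m + 1 : ℕ) : ℝ) / J) ^ s ≤ ((1 + (m : ℝ) / J) * (1 + 1 / J)) ^ s := pow_le_pow_left₀ (by positivity) c1 s
      _ = (1 + (m : ℝ) / J) ^ s * (1 + 1 / (J : ℝ)) ^ s := by rw [mul_pow]
      _ ≤ (1 + (m : ℝ) / J) ^ s * 3 := by
          have := one_add_pow_le hJ hs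
          gcongr
  unfold aw
  calc al p g J (m + 1) * (1 + ((m + 1 : ℕ) : ℝ) / J) ^ s
      ≤ ((6 * m / ((g : ℝ) * J)) ^ p * al p g J m) * ((1 + (m : ℝ) / J) ^ s * 3) := by
        have := al_nonneg p g J m
        gcongr
    _ = _ := by ring

/-- The ratio when `g m ≤ J`. -/
lemma aw_succ' {p g J s m : ℕ} (hp : 3 ≤ p) (hg : 6 ≤ g) (hm : 1 ≤ m) (hJ : g * m ≤ J) (hs : s ≤ J) {κ : ℝ}
    (hκ : 3 * 6 ^ 3 ≤ κ * (g : ℝ) ^ 5) :
    aw p g J s (m + 1) ≤ κ * ((m : ℝ) / J) * aw p g J s m := by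
  have hJ1 : 1 ≤ J := le_trans (by nlinarith) hJ
  have hg6 : (6 : ℝ) ≤ g := by exact_mod_cast hg
  have hg' : (0 : ℝ) < g := by linarith
  have hJ' : (0 : ℝ) < J := by exact_mod_cast hJ1
  have hm' : (0 : ℝ) < m := by exact_mod_cast hm
  have hgm : (g : ℝ) * m ≤ J := by exact_mod_cast hJ
  refine (aw_succ (by omega) hJ1 hm hs).trans ?_
  refine mul_le_mul_of_nonneg_right ?_ (aw_nonneg _ _ _ _ _)
  have h1 : (m : ℝ) / J ≤ 1 / g := by
    rw [div_le_div_iff₀ hJ' hg']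
    linarith
  have h2 : ((m : ℝ) / J) ^ 2 ≤ (1 / (g : ℝ)) ^ 2 := pow_le_pow_left₀ (by positivity) h1 2
  have h3 : 6 * (m : ℝ) / ((g : ℝ) * J) ≤ 1 := by
    rw [div_le_one (by positivity)]
    nlinarith
  have h4 : (6 * (m : ℝ) / ((g : ℝ) * J)) ^ p ≤ (6 * (m : ℝ) / ((g : ℝ) * J)) ^ 3 := pow_le_pow_of_le_one (by positivity) h3 hp
  have e : 3 * (6 * (m : ℝ) / ((g : ℝ) * J)) ^ 3 = (3 * 6 ^ 3) / (g : ℝ) ^ 3 * ((m : ℝ) / J) ^ 2 * ((m : ℝ) / J) := by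
    field_simp
  calc 3 * (6 * (m : ℝ) / ((g : ℝ) * J)) ^ p ≤ 3 * (6 * (m : ℝ) / ((g : ℝ) * J)) ^ 3 := by linarith
    _ = (3 * 6 ^ 3) / (g : ℝ) ^ 3 * ((m : ℝ) / J) ^ 2 * ((m : ℝ) / J) := e
    _ ≤ κ * ((m : ℝ) / J) := by
        refine mul_le_mul_of_nonneg_right ?_ (by positivity)
        calc (3 * 6 ^ 3) / (g : ℝ) ^ 3 * ((m : ℝ) / J) ^ 2 ≤ (3 * 6 ^ 3) / (g : ℝ) ^ 3 * (1 / (g : ℝ)) ^ 2 := by gcongr
          _ = (3 * 6 ^ 3) / (g : ℝ) ^ 5 := by
              rw [one_div, inv_pow]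
              field_simp
          _ ≤ κ := by rw [div_le_iff₀ (by positivity)]; exact hκ

/-- A geometric sum. -/
lemma sum_geo {b : ℕ → ℝ} (hb : ∀ t, 0 ≤ b t) {e : ℕ} (h : ∀ t, e + 1 ≤ t → b (t + 1) ≤ b t / 2) (n : ℕ) :
    ∑ t ∈ Ioc e n, b t ≤ 2 * b (e + 1) := by
  rcases le_total n e with hn | hn
  · rw [Ioc_eq_empty (by omega), sum_empty]
    linarith [hb (e + 1)]
  · have key : ∀ k, ∑ t ∈ Ioc e (e + k), b t ≤ 2 * b (e + 1) - 2 * b (e + k + 1) := by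
      intro k
      induction k with
      | zero => simp
      | succ k ih =>
        rw [← add_assoc, sum_Ioc_succ_top (by omega : e ≤ e + k)]
        have h1 := h (e + k + 1) (by omega)
        linarith
    obtain ⟨k, rfl⟩ := Nat.exists_eq_add_of_le hn
    have := key k
    linarith [hb (e + k + 1)]

/-- The weights are not too small. -/
lemma al_ge {r : ℝ} (hr : 1 < r) (hr48 : r ^ 48 = 2) {a : ℕ} (ha : 120 * a + 80 ≤ 2 ^ a) {J m : ℕ} (hm : 1 ≤ m)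
    (hJ : 2 * (2 ^ a * m) ≤ 3 * J) : 1 / r ^ (6 * J) ≤ al 5 (2 ^ a) J m := by
  set g : ℕ := 2 ^ a with hg
  have hg0 : 0 < g := by positivity
  have hg' : (0 : ℝ) < g := by exact_mod_cast hg0
  have hm' : (0 : ℝ) < m := by exact_mod_cast hm
  have hJ1 : 0 < J := by
    by_contra h
    have : J = 0 := by omega
    subst this
    have : 0 < g * m := Nat.mul_pos hg0 (by omega)
    omega
  have hJ' : (0 : ℝ) < J := by exact_mod_cast hJ1
  have hr0 : 0 < r := by linarith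
  have e1 : al 5 g J m = 1 / ((g : ℝ) * J / m) ^ (5 * m) := by
    unfold al
    rw [one_div, ← inv_pow, inv_div]
  rw [e1]
  refine one_div_le_one_div_of_le (by positivity) ?_
  refine le_of_pow_le_pow_left₀ (n := g) (by omega) (by positivity) ?_
  -- `(g J / m) ^ (5 m g) ≤ r ^ (6 J g)`
  have e2 : (((g : ℝ) * J / m) ^ (5 * m)) ^ g = ((2 : ℝ) ^ (2 * a)) ^ (5 * (g * m)) * (((J : ℝ) / (g * m)) ^ (g * m)) ^ 5 := by
    have h1 : (((g : ℝ) * J / m) ^ (5 * m)) ^ g = ((g : ℝ) * J / m) ^ (5 * (g * m)) := by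
      rw [← pow_mul]
      congr 1
      ring
    have h2 : (((J : ℝ) / (g * m)) ^ (g * m)) ^ 5 = ((J : ℝ) / (g * m)) ^ (5 * (g * m)) := by
      rw [← pow_mul]
      congr 1
      ring
    rw [h1, h2, ← mul_pow]
    congr 1
    have : ((2 : ℝ) ^ (2 * a)) = (g : ℝ) * g := by
      rw [hg]
      push_cast
      rw [two_mul, pow_add]
    rw [this]
    field_simp
  have b1 : ((2 : ℝ) ^ (2 * a)) ^ (5 * (g * m)) ≤ r ^ (720 * a * J) := by
    rw [← pow_mul, ← hr48, ← pow_mul]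
    refine pow_le_pow_right₀ hr.le ?_
    nlinarith [Nat.mul_le_mul_left (240 * a) hJ]
  have b2 : ((J : ℝ) / (g * m)) ^ (g * m) ≤ r ^ (96 * J) := by
    have hn : (0 : ℝ) < (g : ℝ) * m := by positivity
    have c1 : (J : ℝ) / (g * m) ≤ Real.exp ((J : ℝ) / (g * m)) := by
      have := Real.add_one_le_exp ((J : ℝ) / (g * m))
      linarith
    calc ((J : ℝ) / (g * m)) ^ (g * m) ≤ (Real.exp ((J : ℝ) / (g * m))) ^ (g * m) := pow_le_pow_left₀ (by positivity) c1 _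
      _ = Real.exp (((g * m : ℕ) : ℝ) * ((J : ℝ) / (g * m))) := by rw [← Real.exp_nat_mul]
      _ = Real.exp J := by
          congr 1
          push_cast
          field_simp
      _ = (Real.exp 1) ^ J := by rw [← Real.exp_nat_mul, mul_one]
      _ ≤ (r ^ 96) ^ J := by
          refine pow_le_pow_left₀ (Real.exp_pos 1).le ?_ J
          have h1 := Real.exp_one_lt_d9
          have h2 : r ^ 96 = 4 := by
            rw [show (96 : ℕ) = 48 * 2 by norm_num, pow_mul, hr48]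
            norm_num
          rw [h2]
          linarith
      _ = r ^ (96 * J) := by rw [← pow_mul]
  rw [e2]
  calc ((2 : ℝ) ^ (2 * a)) ^ (5 * (g * m)) * (((J : ℝ) / (g * m)) ^ (g * m)) ^ 5 ≤ r ^ (720 * a * J) * (r ^ (96 * J)) ^ 5 := by
        gcongr
    _ = r ^ (720 * a * J + 96 * J * 5) := by rw [← pow_mul, ← pow_add]
    _ ≤ r ^ (6 * J * g) := by
        refine pow_le_pow_right₀ hr.le ?_
        nlinarith [Nat.mul_le_mul_left (6 * J) ha]
    _ = (r ^ (6 * J)) ^ g := by rw [← pow_mul]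

end Pool.Agent.H78.PL
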