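import Pool.Agent.H78.PL.Num1

/-! Arithmetic of the epochs, part 2: one epoch. -/

set_option autoImplicit false

open Finset

namespace Pool.Agent.H78.PL

/-- The normalised system: `f j t` is the cost of the thresholds at distance `t` at level `j`, `gl j` the factor of level `j`, `P` the
number of values. -/
structure Sys (C r : ℝ) (gl : ℕ → ℕ) (P : ℕ) (N : ℝ) (h : ℕ) (f : ℕ → ℕ → ℝ) : Prop where
  f0 : ∀ j t, 0 ≤ f j t
  step : ∀ j d, j < h → 1 ≤ d → f (j + 1) d ≤ f j (gl j * (d - 1) + 1) + 2 * C * ∑ t ∈ Ioc (gl j * (d - 1) + 1) P, f j t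
  dd : ∀ i s d, i + s ≤ h → (∀ k, i ≤ k → k < i + s → gl k = 1) → 2 ≤ d →
    f (i + s) d ≤ r ^ (24 * s) * (C * ∑ t ∈ Icc d P, f i t)
  fl : ∀ j t, j ≤ h → j + 2 ≤ t → f j t ≤ C * (P : ℝ) ^ 2 / (N * r ^ (24 * j))
  base : f 0 1 ≤ 1
  P1 : 1 ≤ P
  N4 : (P : ℝ) ^ 4 ≤ N

/-- The parameters. -/
structure Par (C r : ℝ) (a J1 : ℕ) : Prop where
  hC : 1 ≤ C
  hr : 1 < r
  r48 : r ^ 48 = 2
  ha : 120 * a + 80 ≤ 2 ^ a
  haC : 4 * C + 2 ≤ (2 : ℝ) ^ a
  h1 : 2 ≤ J1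
  hZ : ∀ J : ℕ, J1 ≤ J → 2000 * C ^ 4 * (J : ℝ) ^ 2 ≤ r ^ J

lemma r24_le {r : ℝ} (hr : 1 < r) (r48 : r ^ 48 = 2) : r ^ 24 ≤ 2 := by
  have h1 : 1 ≤ r ^ 24 := one_le_pow₀ hr.le
  have h2 : r ^ 24 * r ^ 24 = 2 := by rw [← pow_add]; exact r48
  nlinarith

variable {C r N : ℝ} {a J1 h P : ℕ} {gl : ℕ → ℕ} {f : ℕ → ℕ → ℝ}

/-- The far field right after a level. -/
lemma Sys.far0 (S : Sys C r gl P N h f) (hC : 1 ≤ C) (hr : 1 < r) {J m : ℕ} (hJ : J < h) (hm : J + 1 ≤ gl J * m) :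
    f (J + 1) (m + 1) ≤ (1 + 2 * C) * C * (P : ℝ) ^ 3 / (N * r ^ (24 * J)) := by
  have h1 := S.step J (m + 1) hJ (show 1 ≤ m + 1 by omega)
  rw [Nat.add_sub_cancel] at h1
  have hP : (1 : ℝ) ≤ P := by exact_mod_cast S.P1
  have hN : 0 < N := lt_of_lt_of_le (by positivity) S.N4
  set B : ℝ := C * (P : ℝ) ^ 2 / (N * r ^ (24 * J)) with hB
  have hB0 : 0 ≤ B := by positivity
  have h2 : f J (gl J * m + 1) ≤ B := S.fl J _ hJ.le (by omega)
  have h3 : ∑ t ∈ Ioc (gl J * m + 1) P, f J t ≤ (P : ℝ) * B := by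
    calc ∑ t ∈ Ioc (gl J * m + 1) P, f J t ≤ ∑ t ∈ Ioc (gl J * m + 1) P, B := by
          refine sum_le_sum fun t ht => S.fl J t hJ.le ?_
          rw [mem_Ioc] at ht
          omega
      _ = ((P - (gl J * m + 1) : ℕ) : ℝ) * B := by rw [sum_const, Nat.card_Ioc, nsmul_eq_mul]
      _ ≤ (P : ℝ) * B := by
          refine mul_le_mul_of_nonneg_right ?_ hB0
          exact_mod_cast (Nat.sub_le _ _)
  calc f (J + 1) (m + 1) ≤ B + 2 * C * ((P : ℝ) * B) := by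
        refine h1.trans (add_le_add h2 ?_)
        exact mul_le_mul_of_nonneg_left h3 (by positivity)
    _ ≤ (1 + 2 * C) * ((P : ℝ) * B) := by nlinarith
    _ = _ := by rw [hB]; ring

/-- The far field in an epoch. -/
lemma Sys.far1 (S : Sys C r gl P N h f) (hC : 1 ≤ C) (hr : 1 < r) {J m : ℕ} (hm : J + 1 ≤ gl J * m)
    (s : ℕ) (hs : J + 1 + s ≤ h) (hn : ∀ k, J + 1 ≤ k → k < J + 1 + s → gl k = 1) :
    f (J + 1 + s) (m + 1) ≤ C ^ 2 * (1 + 2 * C) * r ^ (24 * s) / r ^ (24 * J) := by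
  have hJ : J < h := by omega
  have hm1 : 1 ≤ m := by
    by_contra h0
    have : m = 0 := by omega
    subst this
    omega
  have hP : (1 : ℝ) ≤ P := by exact_mod_cast S.P1
  have hN : 0 < N := lt_of_lt_of_le (by positivity) S.N4
  have hr0 : 0 < r := by linarith
  set B : ℝ := (1 + 2 * C) * C * (P : ℝ) ^ 3 / (N * r ^ (24 * J)) with hB
  have hB0 : 0 ≤ B := by positivity
  have h1 : ∑ t ∈ Icc (m + 1) P, f (J + 1) t ≤ (P : ℝ) * B := by
    calc ∑ t ∈ Icc (m + 1) P, f (J + 1) t ≤ ∑ t ∈ Icc (m + 1) P, B := by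
          refine sum_le_sum fun t ht => ?_
          rw [mem_Icc] at ht
          obtain ⟨t', rfl⟩ : ∃ t', t = t' + 1 := ⟨t - 1, by omega⟩
          exact S.far0 hC hr hJ (hm.trans (Nat.mul_le_mul_left _ (by omega)))
      _ = ((P + 1 - (m + 1) : ℕ) : ℝ) * B := by rw [sum_const, Nat.card_Icc, nsmul_eq_mul]
      _ ≤ (P : ℝ) * B := by
          refine mul_le_mul_of_nonneg_right ?_ hB0
          exact_mod_cast (by omega : P + 1 - (m + 1) ≤ P)
  calc f (J + 1 + s) (m + 1) ≤ r ^ (24 * s) * (C * ∑ t ∈ Icc (m + 1) P, f (J + 1) t) := S.dd (J + 1) s (m + 1) hs hn (by omega)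
    _ ≤ r ^ (24 * s) * (C * ((P : ℝ) * B)) := by gcongr
    _ = C ^ 2 * (1 + 2 * C) * r ^ (24 * s) / r ^ (24 * J) * ((P : ℝ) ^ 4 / N) := by
        rw [hB]
        field_simp
    _ ≤ C ^ 2 * (1 + 2 * C) * r ^ (24 * s) / r ^ (24 * J) * 1 := by
        refine mul_le_mul_of_nonneg_left ?_ (by positivity)
        rw [div_le_one hN]
        exact S.N4
    _ = _ := by ring

/-- A sum over the thresholds, near field and far field. -/
lemma sum_bound {p g J s j e : ℕ} {F : ℝ} (hp : 3 ≤ p) (hF : 0 ≤ F) (hg : 6 ≤ g) (hg9 : 2 * (3 * 6 ^ 3) ≤ (g : ℝ) ^ 5) (hs : s ≤ J)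
    (he : 1 ≤ e)
    (hn : ∀ m, 1 ≤ m → g * m ≤ J → f j (m + 1) ≤ aw p g J s m) (hf : ∀ m, J < g * m → f j (m + 1) ≤ F) :
    ∑ t ∈ Ioc e P, f j t ≤ 2 * (if g * e ≤ J then aw p g J s e else 0) + (P : ℝ) * F := by
  classical
  set b : ℕ → ℝ := fun t => if g * (t - 1) ≤ J then aw p g J s (t - 1) else 0 with hb
  have b0 : ∀ t, 0 ≤ b t := by
    intro t
    simp only [hb]
    split_ifs
    · exact aw_nonneg _ _ _ _ _
    · exact le_rfl
  have hgeo : ∀ t, e + 1 ≤ t → b (t + 1) ≤ b t / 2 := by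
    intro t ht
    obtain ⟨m, rfl⟩ : ∃ m, t = m + 1 := ⟨t - 1, by omega⟩
    simp only [hb, Nat.add_sub_cancel]
    by_cases h1 : g * (m + 1) ≤ J
    · have h2 : g * m ≤ J := le_trans (Nat.mul_le_mul_left _ (by omega)) h1
      rw [if_pos h1, if_pos h2]
      have hm : 1 ≤ m := by omega
      have hJ : 0 < J := lt_of_lt_of_le (by positivity) h1
      have h3 := aw_succ' (κ := 1 / 2) (s := s) hp hg hm h2 hs (by norm_num at hg9 ⊢; linarith)
      have h4 : (m : ℝ) / J ≤ 1 := by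
        rw [div_le_one (by exact_mod_cast hJ)]
        have : m ≤ J := le_trans (Nat.le_mul_of_pos_left m (by omega)) h2
        exact_mod_cast this
      have h5 := aw_nonneg p g J s m
      have h6 : (m : ℝ) / J * aw p g J s m ≤ 1 * aw p g J s m := mul_le_mul_of_nonneg_right h4 h5
      linarith
    · rw [if_neg h1]
      have := b0 (m + 1)
      simp only [hb, Nat.add_sub_cancel] at this
      linarith
  have h1 : ∑ t ∈ Ioc e P, f j t ≤ ∑ t ∈ Ioc e P, (b t + F) := by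
    refine sum_le_sum fun t ht => ?_
    rw [mem_Ioc] at ht
    obtain ⟨m, rfl⟩ : ∃ m, t = m + 1 := ⟨t - 1, by omega⟩
    simp only [hb, Nat.add_sub_cancel]
    by_cases h2 : g * m ≤ J
    · rw [if_pos h2]
      linarith [hn m (by omega) h2]
    · rw [if_neg h2]
      linarith [hf m (by omega)]
  rw [sum_add_distrib, sum_const, Nat.card_Ioc, nsmul_eq_mul] at h1
  have h2 := sum_geo b0 hgeo P
  have h3 : ((P - e : ℕ) : ℝ) * F ≤ (P : ℝ) * F := by
    refine mul_le_mul_of_nonneg_right ?_ hF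
    exact_mod_cast (Nat.sub_le _ _)
  have h4 : b (e + 1) = if g * e ≤ J then aw p g J s e else 0 := by
    simp only [hb, Nat.add_sub_cancel]
  rw [h4] at h2
  linarith

end Pool.Agent.H78.PL
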