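import Pool.Agent.H78.PL.Num2

/-! Arithmetic of the epochs, part 3: start, near field, end of an epoch. -/

set_option autoImplicit false

open Finset

namespace Pool.Agent.H78.PL

variable {C r N : ℝ} {a J1 h P : ℕ} {gl : ℕ → ℕ} {f : ℕ → ℕ → ℝ}

/-- The constant of the far field. -/
noncomputable def C1 (C : ℝ) : ℝ := C ^ 2 * (1 + 2 * C)

lemma C1_nonneg (hC : 1 ≤ C) : 0 ≤ C1 C := by unfold C1; positivity

lemma C1_le (hC : 1 ≤ C) : C1 C ≤ 3 * C ^ 3 := by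
  unfold C1
  have : 0 ≤ C ^ 2 := by positivity
  nlinarith

lemma Par.J_pos (Q : Par C r a J1) {J : ℕ} (hJ : J1 ≤ J) : 0 < J := by
  have := Q.h1
  omega

/-- The basic smallness. -/
lemma Par.junk (Q : Par C r a J1) {J : ℕ} (hJ : J1 ≤ J) (hP : (P : ℝ) ≤ r ^ J) :
    2000 * C ^ 4 * (J : ℝ) ^ 2 * P / r ^ (8 * J) ≤ 1 / r ^ (6 * J) := by
  have hr0 : 0 < r := by linarith [Q.hr]
  rw [div_le_div_iff₀ (by positivity) (by positivity), one_mul]
  have h1 := Q.hZ J hJ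
  calc 2000 * C ^ 4 * (J : ℝ) ^ 2 * P * r ^ (6 * J) ≤ r ^ J * r ^ J * r ^ (6 * J) := by gcongr
    _ = r ^ (8 * J) := by rw [← pow_add, ← pow_add]; congr 1; ring

lemma Par.g_facts (Q : Par C r a J1) : 80 ≤ 2 ^ a ∧ (0 : ℝ) < ((2 ^ a : ℕ) : ℝ) ∧ 4 * C + 2 ≤ ((2 ^ a : ℕ) : ℝ) ∧ (80 : ℝ) ≤ ((2 ^ a : ℕ) : ℝ) := by
  have h1 := Q.ha
  have h2 : 80 ≤ 2 ^ a := by omega
  refine ⟨h2, by positivity, ?_, by exact_mod_cast h2⟩
  have := Q.haC
  push_cast
  exact this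

/-- The near field in an epoch. -/
lemma near (S : Sys C r gl P N h f) (Q : Par C r a J1) {J : ℕ} (hJ : J1 ≤ J) (hP : (P : ℝ) ≤ r ^ J)
    (hst : ∀ m, 1 ≤ m → 2 ^ a * m ≤ J → f (J + 1) (m + 1) ≤ al 5 (2 ^ a) J m)
    (far : ∀ s m, 2 * s ≤ J → J + 1 + s ≤ h → (∀ k, J + 1 ≤ k → k < J + 1 + s → gl k = 1) → J < 2 ^ a * m →
      f (J + 1 + s) (m + 1) ≤ C1 C / r ^ (12 * J)) :
    ∀ s, 2 * s ≤ J → J + 1 + s ≤ h → (∀ k, J + 1 ≤ k → k < J + 1 + s → gl k = 1) → ∀ m, 1 ≤ m → 2 ^ a * m ≤ J →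
      f (J + 1 + s) (m + 1) ≤ aw 5 (2 ^ a) J s m := by
  have hJ0 := Q.J_pos hJ
  obtain ⟨g80, g0, gC, g80'⟩ := Q.g_facts
  have hC := Q.hC
  have hr0 : 0 < r := by linarith [Q.hr]
  intro s
  induction s with
  | zero =>
    intro _ _ _ m hm hmJ
    rw [aw_zero]
    exact hst m hm hmJ
  | succ s ih =>
    intro hs hsh hn m hm hmJ
    have hn' : ∀ k, J + 1 ≤ k → k < J + 1 + s → gl k = 1 := fun k h1 h2 => hn k h1 (by omega)
    have hnear := ih (by omega) (by omega) hn'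
    have hfar := fun m => far s m (by omega) (by omega) hn'
    have hgl : gl (J + 1 + s) = 1 := hn _ (by omega) (by omega)
    have h1 := S.step (J + 1 + s) (m + 1) (by omega) (by omega)
    rw [hgl, one_mul, Nat.add_sub_cancel] at h1
    set F : ℝ := C1 C / r ^ (12 * J) with hFdef
    have hF0 : 0 ≤ F := div_nonneg (C1_nonneg hC) (by positivity)
    have hg5 : 2 * (3 * 6 ^ 3) ≤ (((2 ^ a : ℕ) : ℝ)) ^ 5 := by
      have : (80 : ℝ) ^ 5 ≤ (((2 ^ a : ℕ) : ℝ)) ^ 5 := pow_le_pow_left₀ (by norm_num) g80' 5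
      norm_num at this ⊢
      linarith
    have h2 := sum_bound (P := P) (g := 2 ^ a) (s := s) (j := J + 1 + s) (e := m + 1) (by norm_num : 3 ≤ 5) hF0 (by omega)
      hg5 (by omega) (by omega) hnear hfar
    have hmJ' : (m : ℝ) / J ≤ 1 := by
      rw [div_le_one (by exact_mod_cast hJ0)]
      have : m ≤ J := le_trans (Nat.le_mul_of_pos_left m (by omega)) hmJ
      exact_mod_cast this
    set A : ℝ := aw 5 (2 ^ a) J s m with hA
    have hA0 : 0 ≤ A := aw_nonneg _ _ _ _ _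
    have h3 : (if 2 ^ a * (m + 1) ≤ J then aw 5 (2 ^ a) J s (m + 1) else 0) ≤ 1 / (16 * C) * ((m : ℝ) / J) * A := by
      split_ifs with h4
      · refine aw_succ' (by norm_num) (by omega) hm hmJ (by omega) ?_
        have k1 : (16 : ℝ) * C ≤ ((2 ^ a : ℕ) : ℝ) * 4 := by linarith
        have k2 : (80 : ℝ) ^ 4 ≤ (((2 ^ a : ℕ) : ℝ)) ^ 4 := pow_le_pow_left₀ (by norm_num) g80' 4
        rw [one_div, inv_mul_eq_div, le_div_iff₀ (by positivity)]
        have k3 : (((2 ^ a : ℕ) : ℝ)) ^ 5 = (((2 ^ a : ℕ) : ℝ)) ^ 4 * ((2 ^ a : ℕ) : ℝ) := by ring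
        rw [k3]
        nlinarith
      · positivity
    have h5 : (1 : ℝ) / (J * r ^ (6 * J)) ≤ (m : ℝ) / J * A := by
      have k1 : 1 / r ^ (6 * J) ≤ A := (al_ge Q.hr Q.r48 Q.ha hm (by omega)).trans (al_le_aw _ _ _ _ _)
      have k2 : (1 : ℝ) / J ≤ (m : ℝ) / J := by
        have : (1 : ℝ) ≤ m := by exact_mod_cast hm
        gcongr
      calc (1 : ℝ) / (J * r ^ (6 * J)) = 1 / J * (1 / r ^ (6 * J)) := by rw [one_div_mul_one_div]
        _ ≤ (m : ℝ) / J * A := by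
          apply mul_le_mul k2 k1 (by positivity) (by positivity)
    have hJr : (1 : ℝ) ≤ J := by exact_mod_cast hJ0
    have h6 : 8 * C * ((P : ℝ) * F) ≤ 1 / (J * r ^ (6 * J)) := by
      have k0 := Q.junk hJ hP
      have k1 := C1_le hC
      have k2 : r ^ (8 * J) ≤ r ^ (12 * J) := pow_le_pow_right₀ Q.hr.le (by omega)
      have k3 : 8 * C * ((P : ℝ) * F) * J ≤ 1 / r ^ (6 * J) := by
        refine le_trans ?_ k0
        rw [hFdef]
        calc 8 * C * ((P : ℝ) * (C1 C / r ^ (12 * J))) * J ≤ 8 * C * ((P : ℝ) * (3 * C ^ 3 / r ^ (8 * J))) * J := by gcongr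
          _ = 24 * C ^ 4 * J * P / r ^ (8 * J) := by ring
          _ ≤ 2000 * C ^ 4 * (J : ℝ) ^ 2 * P / r ^ (8 * J) := by
              gcongr
              · norm_num
              · nlinarith
      rw [← div_div, div_right_comm, le_div_iff₀ (by positivity)]
      exact k3
    have e1 : aw 5 (2 ^ a) J (s + 1) m = A * (1 + (m : ℝ) / J) := by
      rw [hA]
      unfold aw
      rw [pow_succ]
      ring
    rw [show J + 1 + (s + 1) = J + 1 + s + 1 by ring, e1]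
    have h7 := hnear m hm hmJ
    have h8 : 2 * C * ∑ t ∈ Ioc (m + 1) P, f (J + 1 + s) t ≤ 2 * C * (2 * (1 / (16 * C) * ((m : ℝ) / J) * A) + (P : ℝ) * F) := by
      refine mul_le_mul_of_nonneg_left (h2.trans ?_) (by positivity)
      linarith
    have h9 : 2 * C * (2 * (1 / (16 * C) * ((m : ℝ) / J) * A) + (P : ℝ) * F) = (m : ℝ) / J * A / 4 + 2 * C * ((P : ℝ) * F) := by
      field_simp
      ring
    have h10 : 0 ≤ (m : ℝ) / J * A := by positivity
    nlinarith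

/-- The far field from `Sys.far1`. -/
lemma far_of (S : Sys C r gl P N h f) (Q : Par C r a J1) {J : ℕ} (hg : 2 ^ a ≤ gl J) :
    ∀ s m, 2 * s ≤ J → J + 1 + s ≤ h → (∀ k, J + 1 ≤ k → k < J + 1 + s → gl k = 1) → J < 2 ^ a * m →
      f (J + 1 + s) (m + 1) ≤ C1 C / r ^ (12 * J) := by
  intro s m hs hsh hn hm
  have hC := Q.hC
  have hr0 : 0 < r := by linarith [Q.hr]
  have h1 := S.far1 hC Q.hr (show J + 1 ≤ gl J * m from le_trans hm (Nat.mul_le_mul_right _ hg)) s hsh hn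
  refine h1.trans ?_
  have h2 : r ^ (24 * s) ≤ r ^ (12 * J) := pow_le_pow_right₀ Q.hr.le (by omega)
  unfold C1
  rw [div_le_div_iff₀ (by positivity) (by positivity)]
  calc C ^ 2 * (1 + 2 * C) * r ^ (24 * s) * r ^ (12 * J) ≤ C ^ 2 * (1 + 2 * C) * r ^ (12 * J) * r ^ (12 * J) := by gcongr
    _ = C ^ 2 * (1 + 2 * C) * r ^ (24 * J) := by
        rw [mul_assoc, ← pow_add]
        congr 2
        ring

/-- The start of the first epoch. -/
lemma start1 (S : Sys C r gl P N h f) (Q : Par C r a J1) {J : ℕ} (hJ : J1 ≤ J) (hJh : J < h) (hg : gl J = J + 2) :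
    ∀ m, 1 ≤ m → 2 ^ a * m ≤ J → f (J + 1) (m + 1) ≤ al 5 (2 ^ a) J m := by
  intro m hm hmJ
  have hJ0 := Q.J_pos hJ
  have hC := Q.hC
  have hr0 : 0 < r := by linarith [Q.hr]
  have hP : (1 : ℝ) ≤ P := by exact_mod_cast S.P1
  have hN : 0 < N := lt_of_lt_of_le (by positivity) S.N4
  have h1 := S.far0 hC Q.hr hJh (show J + 1 ≤ gl J * m by rw [hg]; nlinarith)
  have h2 := al_ge Q.hr Q.r48 Q.ha hm (show 2 * (2 ^ a * m) ≤ 3 * J by omega)
  refine le_trans h1 (le_trans ?_ h2)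
  have hJr : (1 : ℝ) ≤ J := by exact_mod_cast hJ0
  have h3 := Q.hZ J hJ
  have h4 : (P : ℝ) ^ 3 / N ≤ 1 := by
    rw [div_le_one hN]
    refine le_trans ?_ S.N4
    exact pow_le_pow_right₀ hP (by norm_num)
  have h5 : (1 + 2 * C) * C ≤ r ^ J := by
    refine le_trans ?_ h3
    have c1 : C ≤ C ^ 4 := by
      calc C = C ^ 1 := (pow_one C).symm
        _ ≤ C ^ 4 := pow_le_pow_right₀ hC (by norm_num)
    have c2 : C ^ 2 ≤ C ^ 4 := pow_le_pow_right₀ hC (by norm_num)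
    have c3 : 0 ≤ C ^ 4 := by positivity
    have c4 : (1 : ℝ) ≤ (J : ℝ) ^ 2 := by nlinarith
    nlinarith
  have e : (1 + 2 * C) * C * (P : ℝ) ^ 3 / (N * r ^ (24 * J)) = (1 + 2 * C) * C / r ^ (24 * J) * ((P : ℝ) ^ 3 / N) := by
    field_simp
  rw [e]
  calc (1 + 2 * C) * C / r ^ (24 * J) * ((P : ℝ) ^ 3 / N) ≤ r ^ J / r ^ (24 * J) * 1 := by gcongr
    _ ≤ 1 / r ^ (6 * J) := by
        rw [mul_one, div_le_div_iff₀ (by positivity) (by positivity), ← pow_add, one_mul]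
        exact pow_le_pow_right₀ Q.hr.le (by omega)

/-- The start of a later epoch. -/
lemma start2 (S : Sys C r gl P N h f) (Q : Par C r a J1) {J : ℕ} (hJ : J1 ≤ J) (hP : (P : ℝ) ≤ r ^ J) (hJh : J < h)
    (hg : gl J = 2 ^ a)
    (inv1 : ∀ m, 1 ≤ m → 2 ^ a * m ≤ J → f J (m + 1) ≤ al 3 (2 ^ a) J m)
    (inv2 : ∀ m, J < 2 ^ a * m → f J (m + 1) ≤ C1 C / r ^ (8 * J)) :
    ∀ m, 1 ≤ m → 2 ^ a * m ≤ J → f (J + 1) (m + 1) ≤ al 5 (2 ^ a) J m := by
  intro m hm hmJ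
  have hJ0 := Q.J_pos hJ
  have hC := Q.hC
  obtain ⟨g80, g0, gC, g80'⟩ := Q.g_facts
  have hr0 : 0 < r := by linarith [Q.hr]
  have hP1 : (1 : ℝ) ≤ P := by exact_mod_cast S.P1
  have h1 := S.step J (m + 1) hJh (by omega)
  rw [hg, Nat.add_sub_cancel] at h1
  set F : ℝ := C1 C / r ^ (8 * J) with hFdef
  have hF0 : 0 ≤ F := div_nonneg (C1_nonneg hC) (by positivity)
  have hg5 : 2 * (3 * 6 ^ 3) ≤ (((2 ^ a : ℕ) : ℝ)) ^ 5 := by
    have : (80 : ℝ) ^ 5 ≤ (((2 ^ a : ℕ) : ℝ)) ^ 5 := pow_le_pow_left₀ (by norm_num) g80' 5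
    norm_num at this ⊢
    linarith
  have hgm : 1 ≤ 2 ^ a * m := le_trans hm (Nat.le_mul_of_pos_left m (by omega))
  have h2 := sum_bound (P := P) (g := 2 ^ a) (s := 0) (j := J) (J := J) (e := 2 ^ a * m + 1) (by norm_num : 3 ≤ 3) hF0 (by omega)
    hg5 (by omega) (by omega) (fun m h3 h4 => by rw [aw_zero]; exact inv1 m h3 h4) inv2
  rw [aw_zero] at h2
  -- the value `X`
  set X : ℝ := if 2 ^ a * (2 ^ a * m) ≤ J then al 3 (2 ^ a) J (2 ^ a * m) else 0 with hX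
  have hX0 : 0 ≤ X := by
    rw [hX]
    split_ifs
    · exact al_nonneg _ _ _ _
    · exact le_rfl
  have h3 : f J (2 ^ a * m + 1) ≤ X + F := by
    rw [hX]
    split_ifs with h4
    · linarith [inv1 _ hgm h4]
    · linarith [inv2 _ (not_le.1 h4)]
  have h4 : (if 2 ^ a * (2 ^ a * m + 1) ≤ J then al 3 (2 ^ a) J (2 ^ a * m + 1) else 0) ≤ X / 2 := by
    split_ifs with h5
    · have h6 : 2 ^ a * (2 ^ a * m) ≤ J := le_trans (Nat.mul_le_mul_left _ (by omega)) h5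
      rw [hX, if_pos h6]
      have h7 := aw_succ' (p := 3) (κ := 1 / 2) (s := 0) (by norm_num) (show 6 ≤ 2 ^ a by omega) hgm h6 (by omega)
        (by norm_num at hg5 ⊢; linarith)
      rw [aw_zero, aw_zero] at h7
      have h8 : ((2 ^ a * m : ℕ) : ℝ) / J ≤ 1 := by
        rw [div_le_one (by exact_mod_cast hJ0)]
        exact_mod_cast hmJ
      have h9 := al_nonneg 3 (2 ^ a) J (2 ^ a * m)
      nlinarith
    · linarith
  have h5 : f (J + 1) (m + 1) ≤ (1 + 2 * C) * X + (1 + 2 * C) * ((P : ℝ) * F) := by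
    have k1 : 2 * C * ∑ t ∈ Ioc (2 ^ a * m + 1) P, f J t ≤ 2 * C * (2 * (X / 2) + (P : ℝ) * F) := by
      refine mul_le_mul_of_nonneg_left (h2.trans ?_) (by positivity)
      linarith
    have k2 : F ≤ (P : ℝ) * F := by nlinarith
    nlinarith
  -- the two parts
  have h6 : (1 + 2 * C) * ((P : ℝ) * F) ≤ al 5 (2 ^ a) J m / 2 := by
    have k0 := Q.junk hJ hP
    have k1 := C1_le hC
    have k2 := al_ge Q.hr Q.r48 Q.ha hm (show 2 * (2 ^ a * m) ≤ 3 * J by omega)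
    have hJr : (1 : ℝ) ≤ J := by exact_mod_cast hJ0
    have k3 : 2 * ((1 + 2 * C) * ((P : ℝ) * F)) ≤ 1 / r ^ (6 * J) := by
      refine le_trans ?_ k0
      rw [hFdef]
      have c1 : 1 + 2 * C ≤ 3 * C := by linarith
      calc 2 * ((1 + 2 * C) * ((P : ℝ) * (C1 C / r ^ (8 * J)))) ≤ 2 * ((3 * C) * ((P : ℝ) * (3 * C ^ 3 / r ^ (8 * J)))) := by gcongr
        _ = 18 * C ^ 4 * 1 * P / r ^ (8 * J) := by ring
        _ ≤ 2000 * C ^ 4 * (J : ℝ) ^ 2 * P / r ^ (8 * J) := by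
            gcongr
            · norm_num
            · nlinarith
    linarith
  have h7 : (1 + 2 * C) * X ≤ al 5 (2 ^ a) J m / 2 := by
    rw [hX]
    split_ifs with h8
    · set G : ℝ := ((2 ^ a : ℕ) : ℝ) with hG
      have hJ' : (0 : ℝ) < J := by exact_mod_cast hJ0
      have hm' : (0 : ℝ) < m := by exact_mod_cast hm
      have e1 : al 3 (2 ^ a) J (2 ^ a * m) = ((m : ℝ) / J) ^ (3 * (2 ^ a * m)) := by
        unfold al
        congr 1
        rw [Nat.cast_mul, ← hG, mul_div_mul_left _ _ g0.ne']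
      have e2 : al 5 (2 ^ a) J m = ((m : ℝ) / J) ^ (5 * m) * (1 / G) ^ (5 * m) := by
        unfold al
        rw [← hG, ← mul_pow]
        congr 1
        field_simp
      have k1 : (m : ℝ) / J ≤ 1 / G := by
        rw [div_le_div_iff₀ hJ' g0, one_mul]
        have : m * 2 ^ a ≤ J := by rw [mul_comm]; exact hmJ
        rw [hG]
        exact_mod_cast this
      have k2 : ((m : ℝ) / J) ^ (3 * (2 ^ a * m)) ≤ ((m : ℝ) / J) ^ (5 * m) * (1 / G) ^ (6 * m) := by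
        have c1 : (m : ℝ) / J ≤ 1 := k1.trans (by rw [div_le_one g0]; linarith)
        calc ((m : ℝ) / J) ^ (3 * (2 ^ a * m)) ≤ ((m : ℝ) / J) ^ (5 * m + 6 * m) := by
              refine pow_le_pow_of_le_one (by positivity) c1 ?_
              nlinarith
          _ = ((m : ℝ) / J) ^ (5 * m) * ((m : ℝ) / J) ^ (6 * m) := by rw [pow_add]
          _ ≤ ((m : ℝ) / J) ^ (5 * m) * (1 / G) ^ (6 * m) := by gcongr
      have k3 : (1 / G) ^ (6 * m) ≤ (1 / G) ^ (5 * m) * (1 / G) := by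
        rw [← pow_succ]
        refine pow_le_pow_of_le_one (by positivity) ?_ (by omega)
        rw [div_le_one g0]
        linarith
      rw [e1, e2]
      have k4 : 2 * (1 + 2 * C) * (1 / G) ≤ 1 := by
        rw [mul_one_div, div_le_one g0]
        linarith
      have k5 : 0 ≤ ((m : ℝ) / J) ^ (5 * m) * (1 / G) ^ (5 * m) := by positivity
      calc (1 + 2 * C) * ((m : ℝ) / J) ^ (3 * (2 ^ a * m))
          ≤ (1 + 2 * C) * (((m : ℝ) / J) ^ (5 * m) * ((1 / G) ^ (5 * m) * (1 / G))) := by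
            refine mul_le_mul_of_nonneg_left (k2.trans ?_) (by positivity)
            exact mul_le_mul_of_nonneg_left k3 (by positivity)
        _ = (((m : ℝ) / J) ^ (5 * m) * (1 / G) ^ (5 * m)) * (2 * (1 + 2 * C) * (1 / G)) / 2 := by ring
        _ ≤ (((m : ℝ) / J) ^ (5 * m) * (1 / G) ^ (5 * m)) * 1 / 2 := by gcongr
        _ = _ := by ring
    · rw [mul_zero]
      have := al_nonneg 5 (2 ^ a) J m
      linarith
  linarith

/-- Comparison of the weights at the end of an epoch. -/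
lemma al_cmp (Q : Par C r a J1) {J J' m : ℕ} (hJ0 : 0 < J) (hJJ : J ≤ J') (hJ' : 2 * J' ≤ 3 * J) (hm : 1 ≤ m) (hmJ : 2 ^ a * m ≤ J') :
    2 ^ m * al 5 (2 ^ a) J m ≤ al 3 (2 ^ a) J' m := by
  obtain ⟨g80, g0, gC, g80'⟩ := Q.g_facts
  set G : ℝ := ((2 ^ a : ℕ) : ℝ) with hG
  have hJr : (0 : ℝ) < J := by exact_mod_cast hJ0
  have hJr' : (0 : ℝ) < J' := by exact_mod_cast (lt_of_lt_of_le hJ0 hJJ)
  have hm' : (0 : ℝ) < m := by exact_mod_cast hm
  have h1 : 2 * (J' : ℝ) ≤ 3 * J := by exact_mod_cast hJ'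
  set q : ℝ := (m : ℝ) / (G * J) with hq
  have q0 : 0 < q := by positivity
  have q1 : q ≤ 1 / 80 := by
    rw [hq, div_le_div_iff₀ (by positivity) (by norm_num)]
    have : G * m ≤ J' := by rw [hG]; exact_mod_cast hmJ
    nlinarith
  have h2 : 2 / 3 * q ≤ (m : ℝ) / (G * J') := by
    rw [hq, le_div_iff₀ (by positivity)]
    have : 2 / 3 * ((m : ℝ) / (G * J)) * (G * J') = m * (2 * J' / (3 * J)) := by field_simp
    rw [this]
    have : 2 * (J' : ℝ) / (3 * J) ≤ 1 := by rw [div_le_one (by positivity)]; exact h1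
    nlinarith
  calc 2 ^ m * al 5 (2 ^ a) J m = (2 * q ^ 5) ^ m := by
        unfold al
        rw [← hG, ← hq, mul_pow, pow_mul]
    _ ≤ ((2 / 3 * q) ^ 3) ^ m := by
        refine pow_le_pow_left₀ (by positivity) ?_ m
        have c1 : 2 * q ^ 2 ≤ 8 / 27 := by nlinarith
        have c2 : 0 ≤ q ^ 3 := by positivity
        calc 2 * q ^ 5 = 2 * q ^ 2 * q ^ 3 := by ring
          _ ≤ 8 / 27 * q ^ 3 := by gcongr
          _ = (2 / 3 * q) ^ 3 := by ring
    _ ≤ (((m : ℝ) / (G * J')) ^ 3) ^ m := by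
        refine pow_le_pow_left₀ (by positivity) ?_ m
        exact pow_le_pow_left₀ (by positivity) h2 3
    _ = al 3 (2 ^ a) J' m := by
        unfold al
        rw [← hG, ← pow_mul]

lemma one_add_pow_two {J m s : ℕ} (hJ0 : 0 < J) (hs : 2 * s ≤ J) : (1 + (m : ℝ) / J) ^ s ≤ 2 ^ m := by
  have hJr : (0 : ℝ) < J := by exact_mod_cast hJ0
  have h1 : 1 + (m : ℝ) / J ≤ Real.exp (m / J) := by
    have := Real.add_one_le_exp ((m : ℝ) / J)
    linarith
  have h2 : Real.exp (1 / 2) ≤ 2 := by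
    have h3 : Real.exp (1 / 2) * Real.exp (1 / 2) = Real.exp 1 := by rw [← Real.exp_add]; norm_num
    have h4 := Real.exp_one_lt_d9
    nlinarith [Real.exp_pos (1 / 2)]
  calc (1 + (m : ℝ) / J) ^ s ≤ (Real.exp (m / J)) ^ s := pow_le_pow_left₀ (by positivity) h1 s
    _ = Real.exp (s * (m / J)) := by rw [← Real.exp_nat_mul]
    _ ≤ Real.exp (m * (1 / 2)) := by
        apply Real.exp_le_exp.2
        have h5 : (s : ℝ) / J ≤ 1 / 2 := by
          rw [div_le_div_iff₀ hJr (by norm_num)]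
          have : (2 : ℝ) * s ≤ J := by exact_mod_cast hs
          linarith
        calc (s : ℝ) * (m / J) = m * (s / J) := by ring
          _ ≤ m * (1 / 2) := by gcongr
    _ = (Real.exp (1 / 2)) ^ m := by rw [← Real.exp_nat_mul]
    _ ≤ 2 ^ m := pow_le_pow_left₀ (Real.exp_pos _).le h2 m

/-- The end of an epoch. -/
lemma end_inv (Q : Par C r a J1) {J s : ℕ} (hJ : J1 ≤ J) (hP : (P : ℝ) ≤ r ^ J) (hP1 : 1 ≤ P) (hs : 2 * s ≤ J) (hs' : 2 * (J + 1 + s) ≤ 3 * J)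
    (hnear : ∀ m, 1 ≤ m → 2 ^ a * m ≤ J → f (J + 1 + s) (m + 1) ≤ aw 5 (2 ^ a) J s m)
    (hfar : ∀ m, J < 2 ^ a * m → f (J + 1 + s) (m + 1) ≤ C1 C / r ^ (12 * J)) :
    (∀ m, 1 ≤ m → 2 ^ a * m ≤ J + 1 + s → f (J + 1 + s) (m + 1) ≤ al 3 (2 ^ a) (J + 1 + s) m) ∧
    (∀ m, J + 1 + s < 2 ^ a * m → f (J + 1 + s) (m + 1) ≤ C1 C / r ^ (8 * (J + 1 + s))) := by
  have hJ0 := Q.J_pos hJ
  have hC := Q.hC
  have hr0 : 0 < r := by linarith [Q.hr]
  have hP1' : (1 : ℝ) ≤ P := by exact_mod_cast hP1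
  constructor
  · intro m hm hmJ
    have h1 := al_cmp Q hJ0 (show J ≤ J + 1 + s by omega) hs' hm hmJ
    by_cases h2 : 2 ^ a * m ≤ J
    · refine (hnear m hm h2).trans (le_trans ?_ h1)
      unfold aw
      rw [mul_comm]
      exact mul_le_mul_of_nonneg_right (one_add_pow_two hJ0 hs) (al_nonneg _ _ _ _)
    · refine (hfar m (not_le.1 h2)).trans (le_trans ?_ h1)
      have h3 := al_ge Q.hr Q.r48 Q.ha hm (show 2 * (2 ^ a * m) ≤ 3 * J by omega)
      have h4 : (1 : ℝ) ≤ 2 ^ m := one_le_pow₀ (by norm_num)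
      have h5 := al_nonneg 5 (2 ^ a) J m
      have h6 : C1 C / r ^ (12 * J) ≤ 1 / r ^ (6 * J) := by
        have k0 := Q.junk hJ hP
        have k1 := C1_le hC
        have hJr : (1 : ℝ) ≤ J := by exact_mod_cast hJ0
        refine le_trans ?_ k0
        have c1 : C ^ 3 ≤ C ^ 4 := pow_le_pow_right₀ hC (by norm_num)
        have c2 : (1 : ℝ) ≤ (J : ℝ) ^ 2 := by nlinarith
        have c3 : r ^ (8 * J) ≤ r ^ (12 * J) := pow_le_pow_right₀ Q.hr.le (by omega)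
        calc C1 C / r ^ (12 * J) ≤ 2000 * C ^ 4 * 1 * 1 / r ^ (8 * J) := by
              gcongr
              have : 0 ≤ C ^ 4 := by positivity
              linarith
          _ ≤ 2000 * C ^ 4 * (J : ℝ) ^ 2 * P / r ^ (8 * J) := by gcongr
      nlinarith
  · intro m hmJ
    refine (hfar m (by omega)).trans ?_
    have h1 : r ^ (8 * (J + 1 + s)) ≤ r ^ (12 * J) := pow_le_pow_right₀ Q.hr.le (by omega)
    have h2 := C1_nonneg hC
    gcongr

end Pool.Agent.H78.PL
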