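import Pool.Agent.H78.PL.Num3

/-! Arithmetic of the epochs, part 4: first levels, growth, induction over the epochs. -/

set_option autoImplicit false

open Finset

namespace Pool.Agent.H78.PL

variable {C r N : ℝ} {a J1 h P : ℕ} {gl : ℕ → ℕ} {f : ℕ → ℕ → ℝ}

/-- The increments in the first levels. -/
lemma first_inc (S : Sys C r gl P N h f) (hC : 1 ≤ C) (hr : 1 < r) {j : ℕ} (hj : j < h) (hn : ∀ k, k < j → gl k = 1) :
    f (j + 1) 1 ≤ f j 1 + 2 * C ^ 3 * (P : ℝ) ^ 4 * r ^ (24 * j) / N := by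
  have hP : (1 : ℝ) ≤ P := by exact_mod_cast S.P1
  have hN : 0 < N := lt_of_lt_of_le (by positivity) S.N4
  have hr0 : 0 < r := by linarith
  have h1 := S.step j 1 hj le_rfl
  simp only [Nat.sub_self, mul_zero, zero_add] at h1
  set B : ℝ := C * (P : ℝ) ^ 2 / N with hB
  have hB0 : 0 ≤ B := by positivity
  have h2 : ∀ t, 2 ≤ t → f 0 t ≤ B := by
    intro t ht
    have := S.fl 0 t (Nat.zero_le _) (by omega)
    simpa using this
  have h3 : ∀ t ∈ Ioc 1 P, f j t ≤ r ^ (24 * j) * (C * ((P : ℝ) * B)) := by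
    intro t ht
    rw [mem_Ioc] at ht
    have h4 := S.dd 0 j t (by omega) (fun k _ hk => hn k (by omega)) (by omega)
    rw [zero_add] at h4
    refine h4.trans ?_
    have h5 : ∑ t' ∈ Icc t P, f 0 t' ≤ (P : ℝ) * B := by
      calc ∑ t' ∈ Icc t P, f 0 t' ≤ ∑ t' ∈ Icc t P, B := by
            refine sum_le_sum fun t' ht' => h2 t' ?_
            rw [mem_Icc] at ht'
            omega
        _ = ((P + 1 - t : ℕ) : ℝ) * B := by rw [sum_const, Nat.card_Icc, nsmul_eq_mul]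
        _ ≤ (P : ℝ) * B := by
            refine mul_le_mul_of_nonneg_right ?_ hB0
            exact_mod_cast (by omega : P + 1 - t ≤ P)
    gcongr
  have h6 : ∑ t ∈ Ioc 1 P, f j t ≤ (P : ℝ) * (r ^ (24 * j) * (C * ((P : ℝ) * B))) := by
    calc ∑ t ∈ Ioc 1 P, f j t ≤ ∑ t ∈ Ioc 1 P, r ^ (24 * j) * (C * ((P : ℝ) * B)) := sum_le_sum h3
      _ = ((P - 1 : ℕ) : ℝ) * (r ^ (24 * j) * (C * ((P : ℝ) * B))) := by rw [sum_const, Nat.card_Ioc, nsmul_eq_mul]
      _ ≤ _ := by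
          refine mul_le_mul_of_nonneg_right ?_ (by positivity)
          exact_mod_cast Nat.sub_le _ _
  calc f (j + 1) 1 ≤ f j 1 + 2 * C * ∑ t ∈ Ioc 1 P, f j t := h1
    _ ≤ f j 1 + 2 * C * ((P : ℝ) * (r ^ (24 * j) * (C * ((P : ℝ) * B)))) := by gcongr
    _ = _ := by
        rw [hB]
        field_simp

/-- The increments in an epoch. -/
lemma epoch_inc (S : Sys C r gl P N h f) (Q : Par C r a J1) {J s : ℕ} (hJ : J1 ≤ J) (hP : (P : ℝ) ≤ r ^ J) (hs : 2 * s ≤ J)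
    (hJ4 : J + 1 + s + 1 ≤ 2 * J) (hsh : J + 1 + s < h)
    (hnear : ∀ m, 1 ≤ m → 2 ^ a * m ≤ J → f (J + 1 + s) (m + 1) ≤ aw 5 (2 ^ a) J s m)
    (hfar : ∀ m, J < 2 ^ a * m → f (J + 1 + s) (m + 1) ≤ C1 C / r ^ (12 * J)) :
    f (J + 1 + s + 1) 1 ≤ f (J + 1 + s) 1 + 1 / (((J + 1 + s : ℕ) : ℝ) * (((J + 1 + s : ℕ) : ℝ) + 1)) := by
  have hJ0 := Q.J_pos hJ
  have hC := Q.hC
  obtain ⟨g80, g0, gC, g80'⟩ := Q.g_facts
  have hr0 : 0 < r := by linarith [Q.hr]
  have hJr : (1 : ℝ) ≤ J := by exact_mod_cast hJ0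
  have h1 := S.step (J + 1 + s) 1 hsh le_rfl
  simp only [Nat.sub_self, mul_zero, zero_add] at h1
  set F : ℝ := C1 C / r ^ (12 * J) with hFdef
  have hF0 : 0 ≤ F := div_nonneg (C1_nonneg hC) (by positivity)
  have hg5 : 2 * (3 * 6 ^ 3) ≤ (((2 ^ a : ℕ) : ℝ)) ^ 5 := by
    have : (80 : ℝ) ^ 5 ≤ (((2 ^ a : ℕ) : ℝ)) ^ 5 := pow_le_pow_left₀ (by norm_num) g80' 5
    norm_num at this ⊢
    linarith
  have h2 := sum_bound (P := P) (g := 2 ^ a) (s := s) (j := J + 1 + s) (e := 1) (by norm_num : 3 ≤ 5) hF0 (by omega)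
    hg5 (by omega) le_rfl hnear hfar
  set G : ℝ := ((2 ^ a : ℕ) : ℝ) with hG
  have h3 : (if 2 ^ a * 1 ≤ J then aw 5 (2 ^ a) J s 1 else 0) ≤ 3 * (1 / (G * J)) ^ 5 := by
    split_ifs
    · unfold aw al
      rw [mul_one, Nat.cast_one, ← hG]
      have := one_add_pow_le (m := J) hJ0 (show s ≤ J by omega)
      calc (1 / (G * J)) ^ 5 * (1 + 1 / (J : ℝ)) ^ s ≤ (1 / (G * J)) ^ 5 * 3 := by gcongr
        _ = _ := by ring
    · positivity
  -- the total
  set j : ℝ := ((J + 1 + s : ℕ) : ℝ) with hj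
  have hj0 : 0 < j := by rw [hj]; positivity
  have hj1 : j + 1 ≤ 2 * J := by rw [hj]; exact_mod_cast hJ4
  have h4 : 1 / (4 * (J : ℝ) ^ 2) ≤ 1 / (j * (j + 1)) := by
    refine one_div_le_one_div_of_le (by positivity) ?_
    nlinarith
  have h5 : 2 * C * (2 * (3 * (1 / (G * J)) ^ 5)) ≤ 1 / (8 * (J : ℝ) ^ 2) := by
    rw [one_div, inv_pow, le_div_iff₀ (by positivity)]
    have c1 : (80 : ℝ) ^ 4 ≤ G ^ 4 := pow_le_pow_left₀ (by norm_num) g80' 4
    have c2 : 96 * C ≤ G ^ 5 := by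
      have : G ^ 5 = G ^ 4 * G := by ring
      rw [this]
      nlinarith
    have c3 : (1 : ℝ) ≤ (J : ℝ) ^ 3 := one_le_pow₀ hJr
    have e : 2 * C * (2 * (3 * ((G * (J : ℝ)) ^ 5)⁻¹)) * (8 * (J : ℝ) ^ 2) = (96 * C) / G ^ 5 / (J : ℝ) ^ 3 := by
      field_simp
      ring
    rw [e, div_le_one (by positivity), div_le_iff₀ (by positivity)]
    have : (1 : ℝ) * G ^ 5 ≤ (J : ℝ) ^ 3 * G ^ 5 := by gcongr
    linarith
  have h6 : 2 * C * ((P : ℝ) * F) ≤ 1 / (8 * (J : ℝ) ^ 2) := by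
    have k0 := Q.junk hJ hP
    have k1 := C1_le hC
    have k2 : 2000 * C ^ 4 * (J : ℝ) ^ 2 * P ≤ r ^ (12 * J) := by
      rw [div_le_div_iff₀ (by positivity) (by positivity), one_mul] at k0
      have c1 : (1 : ℝ) ≤ r ^ (6 * J) := one_le_pow₀ Q.hr.le
      have c2 : r ^ (8 * J) ≤ r ^ (12 * J) := pow_le_pow_right₀ Q.hr.le (by omega)
      have c3 : 0 ≤ 2000 * C ^ 4 * (J : ℝ) ^ 2 * P := by positivity
      nlinarith
    rw [hFdef, le_div_iff₀ (by positivity)]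
    have e : 2 * C * ((P : ℝ) * (C1 C / r ^ (12 * J))) * (8 * (J : ℝ) ^ 2) = 16 * C * C1 C * (J : ℝ) ^ 2 * P / r ^ (12 * J) := by
      ring
    rw [e, div_le_one (by positivity)]
    refine le_trans ?_ k2
    have c4 : 16 * C * C1 C ≤ 2000 * C ^ 4 := by
      have : 16 * C * C1 C ≤ 16 * C * (3 * C ^ 3) := by gcongr
      have c5 : 0 ≤ C ^ 4 := by positivity
      nlinarith
    gcongr
  have h7 : 2 * C * ∑ t ∈ Ioc 1 P, f (J + 1 + s) t ≤ 2 * C * (2 * (3 * (1 / (G * J)) ^ 5)) + 2 * C * ((P : ℝ) * F) := by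
    rw [← mul_add]
    refine mul_le_mul_of_nonneg_left (h2.trans ?_) (by positivity)
    linarith
  have h8 : 1 / (8 * (J : ℝ) ^ 2) + 1 / (8 * (J : ℝ) ^ 2) = 1 / (4 * (J : ℝ) ^ 2) := by
    field_simp
    norm_num
  linarith

/-- The epochs. -/
theorem core' {C r : ℝ} {a : ℕ} {J P h : ℕ} {Jk G : ℕ → ℕ} {F : ℕ → ℕ → ℝ} (Q : Par C r a J) (hJa : 2 ^ a ≤ J + 2) (hJ4 : 4 ≤ J)
    (h0 : Jk 0 = J) (hk : ∀ k, Jk (k + 1) = 3 * Jk k / 2) (hG0 : G J = J + 2) (hGk : ∀ k, 1 ≤ k → G (Jk k) = 2 ^ a)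
    (hG1 : ∀ i, (∀ k, i ≠ Jk k) → G i = 1) (mono : StrictMono Jk) (cov : ∀ i, J < i → ∃ k, Jk k < i ∧ i ≤ Jk (k + 1))
    (hP : (P : ℝ) ≤ r ^ J) (S : Sys C r G P (r ^ (48 * J)) h F) : F h 1 ≤ 3 := by
  have hC := Q.hC
  have hr0 : 0 < r := by linarith [Q.hr]
  have hP1 : (1 : ℝ) ≤ P := by exact_mod_cast S.P1
  have Jge : ∀ k, J ≤ Jk k := by
    intro k
    rw [← h0]
    exact mono.monotone (Nat.zero_le k)
  have hPk : ∀ k, (P : ℝ) ≤ r ^ Jk k := fun k => hP.trans (pow_le_pow_right₀ Q.hr.le (Jge k))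
  have hGge : ∀ k, 2 ^ a ≤ G (Jk k) := by
    intro k
    rcases Nat.eq_zero_or_pos k with hk0 | hk0
    · subst hk0
      rw [h0, hG0]
      exact hJa
    · rw [hGk k hk0]
  -- normal levels
  have norm0 : ∀ k, k < J → G k = 1 := by
    intro k hkJ
    refine hG1 k (fun i hi => ?_)
    have := Jge i
    omega
  have normk : ∀ k s, Jk k + 1 + s ≤ Jk (k + 1) → ∀ i, Jk k + 1 ≤ i → i < Jk k + 1 + s → G i = 1 := by
    intro k s hs i hi1 hi2
    refine hG1 i (fun q hq => ?_)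
    rcases Nat.lt_or_ge q (k + 1) with h1 | h1
    · have := mono.monotone (show q ≤ k by omega)
      omega
    · have := mono.monotone h1
      omega
  -- the starts
  have start : ∀ k, Jk k < h → ∀ m, 1 ≤ m → 2 ^ a * m ≤ Jk k → F (Jk k + 1) (m + 1) ≤ al 5 (2 ^ a) (Jk k) m := by
    intro k
    induction k with
    | zero =>
      intro hh
      rw [h0] at hh ⊢
      exact start1 S Q le_rfl hh hG0
    | succ k ih =>
      intro hh
      have hJk := Jge k
      have e1 := hk k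
      have hlt : Jk k < Jk (k + 1) := mono (Nat.lt_succ_self k)
      set s := Jk (k + 1) - Jk k - 1 with hs
      have e2 : Jk k + 1 + s = Jk (k + 1) := by omega
      have s1 : 2 * s ≤ Jk k := by omega
      have s2 : 2 * (Jk k + 1 + s) ≤ 3 * Jk k := by omega
      have nk := normk k s e2.le
      have far := far_of S Q (hGge k)
      have hst := ih (by omega)
      have nr := near S Q (Jge k) (hPk k) hst far s s1 (by omega) nk
      have fr := fun m => far s m s1 (by omega) nk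
      obtain ⟨i1, i2⟩ := end_inv Q (Jge k) (hPk k) S.P1 s1 s2 nr fr
      rw [e2] at i1 i2
      exact start2 S Q (Jge (k + 1)) (hPk (k + 1)) hh (hGk (k + 1) (by omega)) i1 i2
  -- the first levels
  set δ : ℝ := 2 * C ^ 3 * (P : ℝ) ^ 4 * r ^ (24 * J) / r ^ (48 * J) with hδ
  have hδ0 : 0 ≤ δ := by positivity
  have hδ1 : ((J : ℝ) + 1) * δ ≤ 1 := by
    have h1 := Q.hZ J le_rfl
    have hJr : (4 : ℝ) ≤ J := by exact_mod_cast hJ4
    have h2 : (P : ℝ) ^ 4 ≤ r ^ (4 * J) := by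
      rw [mul_comm, pow_mul]
      exact pow_le_pow_left₀ (by positivity) hP 4
    have h3 : ((J : ℝ) + 1) * (2 * C ^ 3) ≤ r ^ J := by
      refine le_trans ?_ h1
      have c1 : C ^ 3 ≤ C ^ 4 := pow_le_pow_right₀ hC (by norm_num)
      have c2 : 0 ≤ C ^ 3 := by positivity
      have c3 : (J : ℝ) + 1 ≤ (J : ℝ) ^ 2 := by nlinarith
      calc ((J : ℝ) + 1) * (2 * C ^ 3) ≤ (J : ℝ) ^ 2 * (2 * C ^ 4) := by gcongr
        _ ≤ 2000 * C ^ 4 * (J : ℝ) ^ 2 := by
            have : 0 ≤ C ^ 4 * (J : ℝ) ^ 2 := by positivity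
            nlinarith
    rw [hδ]
    have e : ((J : ℝ) + 1) * (2 * C ^ 3 * (P : ℝ) ^ 4 * r ^ (24 * J) / r ^ (48 * J)) =
        (((J : ℝ) + 1) * (2 * C ^ 3)) * (P : ℝ) ^ 4 * r ^ (24 * J) / r ^ (48 * J) := by ring
    rw [e, div_le_one (by positivity)]
    calc (((J : ℝ) + 1) * (2 * C ^ 3)) * (P : ℝ) ^ 4 * r ^ (24 * J) ≤ r ^ J * r ^ (4 * J) * r ^ (24 * J) := by gcongr
      _ = r ^ (29 * J) := by rw [← pow_add, ← pow_add]; congr 1; ring
      _ ≤ r ^ (48 * J) := pow_le_pow_right₀ Q.hr.le (by omega)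
  have A : ∀ j, j ≤ J + 1 → j ≤ h → F j 1 ≤ 1 + j * δ := by
    intro j
    induction j with
    | zero =>
      intro _ _
      have := S.base
      simpa using this
    | succ j ih =>
      intro h1 h2
      have h3 := first_inc S hC Q.hr (show j < h by omega) (fun k hk => norm0 k (by omega))
      have h4 := ih (by omega) (by omega)
      have h5 : 2 * C ^ 3 * (P : ℝ) ^ 4 * r ^ (24 * j) / r ^ (48 * J) ≤ δ := by
        rw [hδ]
        have : r ^ (24 * j) ≤ r ^ (24 * J) := pow_le_pow_right₀ Q.hr.le (by omega)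
        gcongr
      push_cast
      linarith
  have A' : ∀ j, j ≤ J + 1 → j ≤ h → F j 1 ≤ 2 := by
    intro j h1 h2
    have h3 := A j h1 h2
    have h4 : (j : ℝ) ≤ (J : ℝ) + 1 := by exact_mod_cast h1
    have h5 : (j : ℝ) * δ ≤ ((J : ℝ) + 1) * δ := mul_le_mul_of_nonneg_right h4 hδ0
    linarith
  -- the later levels
  have B : ∀ i, J + 1 + i ≤ h → F (J + 1 + i) 1 ≤ 2 + (1 / ((J : ℝ) + 1) - 1 / ((J + 1 + i : ℕ) : ℝ)) := by
    intro i
    induction i with
    | zero =>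
      intro h1
      have := A' (J + 1) le_rfl h1
      push_cast
      simp only [add_zero, sub_self]
      linarith
    | succ i ih =>
      intro h1
      have h2 := ih (by omega)
      obtain ⟨k, k1, k2⟩ := cov (J + 1 + i) (by omega)
      have hJk := Jge k
      have e1 := hk k
      set s := J + 1 + i - Jk k - 1 with hs
      have e2 : Jk k + 1 + s = J + 1 + i := by omega
      have s1 : 2 * s ≤ Jk k := by omega
      have nk := normk k s (by omega)
      have far := far_of S Q (hGge k)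
      have hst := start k (by omega)
      have nr := near S Q (Jge k) (hPk k) hst far s s1 (by omega) nk
      have fr := fun m => far s m s1 (by omega) nk
      have inc := epoch_inc S Q (Jge k) (hPk k) s1 (by omega) (by omega) nr fr
      rw [e2] at inc
      have e3 : J + 1 + (i + 1) = J + 1 + i + 1 := by ring
      rw [e3]
      set x : ℝ := ((J + 1 + i : ℕ) : ℝ) with hx
      have x0 : 0 < x := by rw [hx]; positivity
      have e4 : (((J + 1 + i + 1 : ℕ)) : ℝ) = x + 1 := by rw [hx]; push_cast; ring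
      rw [e4]
      have e5 : 1 / (x * (x + 1)) = 1 / x - 1 / (x + 1) := by
        field_simp
        ring
      rw [e5] at inc
      linarith
  rcases Nat.lt_or_ge h (J + 1) with hh | hh
  · have := A' h hh.le le_rfl
    linarith
  · obtain ⟨i, rfl⟩ := Nat.exists_eq_add_of_le hh
    have h1 := B i le_rfl
    have h2 : 0 ≤ 1 / ((J + 1 + i : ℕ) : ℝ) := by positivity
    have h3 : 1 / ((J : ℝ) + 1) ≤ 1 := by
      rw [div_le_one (by positivity)]
      have : (0 : ℝ) ≤ J := by positivity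
      linarith
    linarith

end Pool.Agent.H78.PL
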